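import Pool.Agent.Work.MP_d0383e_an.Dir.Vert

/-!
A Lipschitz bound, uniform in time, for the maximal solution when the flow is weak.
The sup-convolution with a cone is again a subsolution; the loss in the flow term is paid by a
small dilation of the test function.
-/

namespace Pool.Agent.Work.MP_d0383e_an.One

open scoped ContDiff Laplacian Topology
open Filter Set

theorem dil_jet {φ : E3 × ℝ → ℝ} (hφ : ContDiff ℝ ∞ φ) (X Y v : E3) (l a b t : ℝ) :
    D0 (fun y => φ (X + l • (y.1 - Y), y.2) + (a * inner ℝ v (y.1 - Y) + b / 2 * ‖y.1 - Y‖ ^ 2))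
      (Y, t) = D0 φ (X, t) ∧
    D1 (fun y => φ (X + l • (y.1 - Y), y.2) + (a * inner ℝ v (y.1 - Y) + b / 2 * ‖y.1 - Y‖ ^ 2))
      (Y, t) = l • D1 φ (X, t) + a • innerSL ℝ v ∧
    ∀ u w, D2 (fun y => φ (X + l • (y.1 - Y), y.2) +
      (a * inner ℝ v (y.1 - Y) + b / 2 * ‖y.1 - Y‖ ^ 2)) (Y, t) u w =
        l ^ 2 * D2 φ (X, t) u w + b * inner ℝ u w := by
  have cφ : ContDiff ℝ ∞ fun Z : E3 => φ (Z, t) := hφ.comp (by fun_prop)
  have hS : ∀ Z : E3, HasFDerivAt (fun Z : E3 => Z - Y) (ContinuousLinearMap.id ℝ E3) Z :=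
    fun Z => (hasFDerivAt_id Z).sub_const Y
  have hA : ∀ Z : E3, HasFDerivAt (fun Z : E3 => X + l • (Z - Y))
      (l • ContinuousLinearMap.id ℝ E3) Z := fun Z => ((hS Z).const_smul l).const_add X
  have hB : ∀ Z : E3, HasFDerivAt
      (fun Z : E3 => a * inner ℝ v (Z - Y) + b / 2 * ‖Z - Y‖ ^ 2)
      (a • innerSL ℝ v + b • innerSL ℝ (Z - Y)) Z := fun Z => by
    have h1 := (((innerSL ℝ v).hasFDerivAt.comp Z (hS Z)).const_mul a).fun_add
      (((hS Z).norm_sq).const_mul (b / 2))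
    refine h1.congr_fderiv ?_
    ext u
    simp
    ring
  have h1 : ∀ Z : E3, D1 (fun y => φ (X + l • (y.1 - Y), y.2) +
      (a * inner ℝ v (y.1 - Y) + b / 2 * ‖y.1 - Y‖ ^ 2)) (Z, t) =
      l • D1 φ (X + l • (Z - Y), t) + (a • innerSL ℝ v + b • innerSL ℝ (Z - Y)) := fun Z => by
    have h2 := (((cφ.differentiable (by simp) _).hasFDerivAt.comp Z (hA Z)).fun_add (hB Z)).fderiv
    refine h2.trans ?_
    ext u
    simp [D1]
  refine ⟨by simp [D0], by rw [h1]; simp, fun u w => ?_⟩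
  unfold D2
  simp only [h1]
  have h3 : HasFDerivAt (fun Z => D1 φ (Z, t)) (fderiv ℝ (fun Z => D1 φ (Z, t)) X)
      (X + l • (Y - Y)) := by
    simp only [sub_self, smul_zero, add_zero]
    exact ((cφ.fderiv_right (m := ∞) le_rfl).differentiable (by simp) _).hasFDerivAt
  have h4 := ((h3.comp Y (hA Y)).const_smul l).fun_add
    ((((innerSL ℝ (E := E3)).hasFDerivAt.comp Y (hS Y)).const_smul b).const_add (a • innerSL ℝ v))
  have h5 := h4.fderiv
  simp only [Function.comp_def, Pi.smul_def] at h5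
  rw [h5]
  simp
  ring_nf
  rfl

theorem trp_dil {Q Q' : E3 →L[ℝ] E3 →L[ℝ] ℝ} {l b : ℝ} {e : E3} (he : ‖e‖ = 1)
    (h : ∀ u w, Q' u w = l * Q u w + b * inner ℝ u w) : trp Q' e = l * trp Q e + 2 * b := by
  have h1 : ∀ i, inner ℝ (bs i) (bs i) = (1 : ℝ) := fun i => by simp [bs]
  simp only [trp, h, h1, real_inner_self_eq_norm_sq, he, Fin.sum_univ_three]
  ring

variable {D : Dat}

theorem decay0 (hp : ∀ k X, D.g (X + latt k) = D.g X) {c : ℝ} (hc : ∀ X, c ≤ ‖D.P‖ + D.g X)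
    (X : E3) {t : ℝ} (ht : 0 ≤ t) : D.G (X, t) ≤ inner ℝ D.P X - c * t := by
  have key := max_principle (fun z => D.G z - (inner ℝ D.P z.1 - c * z.2))
    (Dat.G_cont.sub (Continuous.continuousOn (by fun_prop)))
    (fun k X t ht => by
      simp only [Dat.G_inv X _ ht (hp k), inner_add_right]; ring)
    (fun X => by simp [Dat.G_init])
    (fun η lam t1 hη hlam X t ht hloc => by
      set χ : E3 × ℝ → ℝ := fun z => inner ℝ D.P z.1 +
        (0 + (-(c * z.2) + η * Real.exp (lam * (z.2 - t1)))) with hχ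
      have hs : ContDiff ℝ ∞ χ :=
        ((innerSL ℝ D.P).contDiff.comp contDiff_fst).add (by fun_prop)
      have e1 : ∀ z, D1 χ z = innerSL ℝ D.P := fun z => by
        unfold D1
        simp only [hχ]
        rw [fderiv_add_const]
        exact (innerSL ℝ D.P).fderiv
      have e2 : D2 χ (X, t) = 0 := by unfold D2; simp only [e1]; simp
      have e0 : D0 χ (X, t) = -c + η * (Real.exp (lam * (t - t1)) * lam) :=
        ((hasDerivAt_time 0 c η lam t1 t).const_add (inner ℝ D.P X)).deriv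
      have hm : IsLocalMax (fun y => D.G y - χ y) (X, t) :=
        hloc.congr (Eventually.of_forall fun y => by simp only [hχ]; ring)
      have h1 := Dat.G_sub (X, t) ht χ hs hm (by rw [e1]; exact D.inner_e3)
      unfold JJ at h1
      rw [e0, e1, e2] at h1
      simp only [trp, zero_apply, Finset.sum_const_zero, sub_zero, mul_zero,
        innerSL_apply_norm, max_eq_left (norm_nonneg D.P)] at h1
      have h2 : 0 < η * (Real.exp (lam * (t - t1)) * lam) := by positivity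
      linarith only [h1, h2, hc X]) X t ht
  linarith only [key]

theorem decay (hp : ∀ k X, D.g (X + latt k) = D.g X) {c : ℝ} (hc : ∀ X, c ≤ ‖D.P‖ + D.g X)
    (hc' : ∀ X, D.g X ≤ c) (X : E3) {t s : ℝ} (ht : 0 ≤ t) (hs : 0 ≤ s) :
    D.G (X, t + s) ≤ D.G (X, t) - c * s := by
  have h0 : -D.C ≤ c := by
    linarith only [D.hC 0, hc' 0, neg_abs_le (D.g 0), norm_nonneg D.P]
  have := (Dat.G_adm.shift (D := D) 0 hs (-(c * s)) (κ := 0) (fun X => by simp) fun X t ht => by
    have h1 := decay0 hp hc X (t := t + s) (by linarith)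
    have h2 := mul_le_mul_of_nonneg_right h0 ht
    rw [add_zero]; linarith only [h1, h2]).le X ht
  simp only [Prod.mk_add_mk, add_zero] at this
  linarith only [this]

theorem D0_bounds (hp : ∀ k X, D.g (X + latt k) = D.g X) {c : ℝ} (hc : ∀ X, c ≤ ‖D.P‖ + D.g X)
    (hc' : ∀ X, D.g X ≤ c) {φ : E3 × ℝ → ℝ} (hφ : ContDiff ℝ ∞ φ) {z : E3 × ℝ}
    (hz : 0 < z.2) (hm : IsLocalMax (fun y => D.G y - φ y) z) : -D.C ≤ D0 φ z ∧ D0 φ z ≤ -c := by
  have tφ : Differentiable ℝ fun s : ℝ => φ (z.1, s) :=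
    (hφ.differentiable (by simp)).comp (by fun_prop)
  have h3 : Tendsto (fun s : ℝ => (z.1, z.2 + s)) (𝓝 0) (𝓝 z) := by
    have : Continuous fun s : ℝ => (z.1, z.2 + s) := by fun_prop
    simpa using this.tendsto 0
  constructor
  · refine ge_of_tendsto (tφ z.2).hasDerivAt.tendsto_slope_zero_right ?_
    filter_upwards [(h3.mono_left (nhdsWithin_le_nhds (s := Ioi 0))).eventually hm,
      self_mem_nhdsWithin] with s h4 hs
    have hs' : (0 : ℝ) < s := hs
    have h5 := Dat.G_time2 (D := D) z.1 hz.le hs'.le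
    simp only [Prod.mk.eta] at h4 h5 ⊢
    rw [smul_eq_mul, ← div_eq_inv_mul, le_div_iff₀ hs']
    linarith only [h4, h5]
  · refine le_of_tendsto (tφ z.2).hasDerivAt.tendsto_slope_zero_left ?_
    filter_upwards [(h3.mono_left (nhdsWithin_le_nhds (s := Iio 0))).eventually hm,
      self_mem_nhdsWithin, mem_nhdsWithin_of_mem_nhds (Ioi_mem_nhds (neg_lt_zero.2 hz))]
      with s h4 hs hs2
    have hs' : s < 0 := hs
    have hs3 : -z.2 < s := hs2
    have h5 := decay hp hc hc' z.1 (t := z.2 + s) (s := -s) (by linarith) (by linarith)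
    rw [add_neg_cancel_right] at h5
    simp only [Prod.mk.eta] at h4 h5 ⊢
    rw [smul_eq_mul, ← div_eq_inv_mul, div_le_iff_of_neg hs']
    linarith only [h4, h5]

/-- The subsolution inequality at a point where the cone sits at another point. -/
theorem cone_sub (hp : ∀ k X, D.g (X + latt k) = D.g X) {c : ℝ} (hc : ∀ X, c ≤ ‖D.P‖ + D.g X)
    (hc' : ∀ X, D.g X ≤ c) {K : ℝ} (hK : 8 * D.C + 32 * D.d * D.L ≤ K) {φ : E3 × ℝ → ℝ}
    (hφ : ContDiff ℝ ∞ φ) {X Y : E3} {t : ℝ} (ht : 0 < t) (hne : X ≠ Y)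
    (hm : IsLocalMax (fun w : E3 × E3 × ℝ => D.G w.2 - K * ‖w.1 - w.2.1‖ - φ (w.1, w.2.2))
      (X, Y, t)) (h3 : D1 φ (X, t) e3 = D.P 2) : JJ D.d φ (X, t) + D.g X ≤ 0 := by
  have hC := D.C_pos
  have hd := D.hd
  have hL := D.hL0
  have hK0 : 0 < K := by have : 0 ≤ D.d * D.L := by positivity
                         linarith
  set v := X - Y with hv
  set r := ‖v‖ with hr
  have hr0 : 0 < r := norm_pos_iff.2 (sub_ne_zero.2 hne)
  have amgm : ∀ u : E3, K * ‖u‖ ≤ K / (2 * r) * (‖u‖ ^ 2 + r ^ 2) := fun u => by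
    rw [div_mul_eq_mul_div, le_div_iff₀ (by positivity)]
    nlinarith [mul_nonneg hK0.le (sq_nonneg (‖u‖ - r))]
  have hp0 : D1 φ (X, t) ≠ 0 := fun h0 => D.hP (by rw [← h3, h0]; rfl)
  have cφ : ContDiff ℝ ∞ fun Z : E3 => φ (Z, t) := hφ.comp (by fun_prop)
  have hgrad : D1 φ (X, t) = (-(K / r)) • innerSL ℝ v := by
    have h1 : IsLocalMax ((fun w : E3 × E3 × ℝ => D.G w.2 - K * ‖w.1 - w.2.1‖ - φ (w.1, w.2.2)) ∘
        fun Z : E3 => (Z, Y, t)) X := IsLocalMax.comp_continuous (by exact hm) (by fun_prop)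
    have h2 : IsLocalMin (fun Z : E3 => φ (Z, t) + K / (2 * r) * ‖Z - Y‖ ^ 2) X := by
      filter_upwards [h1] with Z hZ
      have h4 := amgm (Z - Y)
      have h5 : K / (2 * r) * (r ^ 2 + r ^ 2) = K * r := by field_simp; ring
      simp only [Function.comp] at hZ
      rw [← hv, ← hr] at hZ ⊢
      linarith only [hZ, h4, h5]
    have h4 := h2.hasFDerivAt_eq_zero ((cφ.differentiable (by simp) X).hasFDerivAt.fun_add
      ((((hasFDerivAt_id X).sub_const Y).norm_sq).const_mul (K / (2 * r))))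
    ext u
    have h5 := congrArg (fun p : E3 →L[ℝ] ℝ => p u) h4
    simp only [add_apply, smul_apply, smul_eq_mul, id,
      ContinuousLinearMap.comp_apply, ContinuousLinearMap.id_apply, innerSL_apply_apply,
      zero_apply, nsmul_eq_mul, Nat.cast_ofNat] at h5
    simp only [D1, smul_apply, smul_eq_mul, innerSL_apply_apply, hv]
    have h6 : K / (2 * r) * (2 * inner ℝ (X - Y) u) = K / r * inner ℝ (X - Y) u := by field_simp
    linarith only [h5, h6]
  have hnorm : ‖D1 φ (X, t)‖ = K := by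
    rw [hgrad, norm_smul, innerSL_apply_norm, norm_neg, Real.norm_eq_abs,
      abs_of_pos (by positivity), ← hr]
    field_simp
  set T := trp (D2 φ (X, t)) (nd (D1 φ (X, t))) with hT
  have key : ∀ σ : ℝ, (-D.C ≤ D0 φ (X, t) ∧ D0 φ (X, t) ≤ -c) ∧
      D0 φ (X, t) + (K - D.d * ((1 - σ) ^ 2 * T + 2 * (K * σ ^ 2 / r))) + D.g Y ≤ 0 := by
    intro σ
    obtain ⟨e0, e1, e2⟩ := dil_jet hφ X Y v (1 - σ) (-(K * σ / r)) (K * σ ^ 2 / r) t
    set ψ : E3 × ℝ → ℝ := fun y => φ (X + (1 - σ) • (y.1 - Y), y.2) +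
      (-(K * σ / r) * inner ℝ v (y.1 - Y) + K * σ ^ 2 / r / 2 * ‖y.1 - Y‖ ^ 2) with hψ
    have hs : ContDiff ℝ ∞ ψ :=
      (hφ.comp (by fun_prop)).add ((contDiff_const.mul ((innerSL ℝ v).contDiff.comp
        (contDiff_fst.sub contDiff_const))).add (contDiff_const.mul
          ((contDiff_norm_sq ℝ).comp (contDiff_fst.sub contDiff_const))))
    have e1' : D1 ψ (Y, t) = D1 φ (X, t) := by
      rw [e1, hgrad, smul_smul, ← add_smul]
      congr 1
      ring
    have h1 : IsLocalMax ((fun w : E3 × E3 × ℝ => D.G w.2 - K * ‖w.1 - w.2.1‖ - φ (w.1, w.2.2)) ∘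
        fun y : E3 × ℝ => (X + (1 - σ) • (y.1 - Y), y)) (Y, t) :=
      IsLocalMax.comp_continuous (by simpa using hm) (by fun_prop)
    have h2 : IsLocalMax (fun y => D.G y - ψ y) (Y, t) := by
      filter_upwards [h1] with y hy
      have h4 := amgm (v - σ • (y.1 - Y))
      have h5 : X + (1 - σ) • (y.1 - Y) - y.1 = v - σ • (y.1 - Y) := by
        rw [hv, sub_smul, one_smul]; abel
      have h6 : K / (2 * r) * (‖v - σ • (y.1 - Y)‖ ^ 2 + r ^ 2) = K * r +
          (-(K * σ / r) * inner ℝ v (y.1 - Y) + K * σ ^ 2 / r / 2 * ‖y.1 - Y‖ ^ 2) := by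
        rw [norm_sub_sq_real, inner_smul_right, norm_smul, mul_pow, Real.norm_eq_abs, sq_abs, ← hr]
        field_simp
        ring
      simp only [Function.comp, sub_self, smul_zero, add_zero, h5] at hy
      rw [← hv, ← hr] at hy
      simp only [hψ, sub_self, smul_zero, add_zero, inner_zero_right, norm_zero]
      linarith only [hy, h4, h6]
    have h4 := Dat.G_sub (Y, t) ht ψ hs h2 (by rw [e1', h3])
    have h5 := D0_bounds hp hc hc' hs (z := (Y, t)) ht h2
    unfold JJ at h4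
    rw [e0] at h4 h5
    rw [e1', hnorm, trp_dil (norm_nd hp0) e2] at h4
    exact ⟨h5, by linarith only [h4, le_max_left (K - D.d * ((1 - σ) ^ 2 * T + 2 * (K * σ ^ 2 / r))) 0]⟩
  obtain ⟨⟨b1, b2⟩, b3⟩ := key 0
  unfold JJ
  rw [hnorm, ← hT]
  rcases le_total (K - D.d * T) 0 with h | h
  · rw [max_eq_right h]; linarith only [b2, hc' X]
  rw [max_eq_left h]
  have gY := D.hC Y
  have gX := D.hC X
  have n0 := norm_nonneg D.P
  have a1 := neg_abs_le (D.g Y)
  have a2 := le_abs_self (D.g X)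
  have hdL : 0 ≤ D.d * D.L := by positivity
  have hT2 : K / 2 ≤ D.d * T := by
    simp only [sub_zero, one_pow, one_mul, ne_eq, OfNat.ofNat_ne_zero, not_false_eq_true,
      zero_pow, mul_zero, zero_div, add_zero] at b3
    linarith only [b1, b3, gY, n0, a1, hK, hC, hdL]
  have hs0 : 0 < r + 8 * D.d := by positivity
  set σ := r / (r + 8 * D.d) with hσ
  have σ0 : 0 < σ := by positivity
  have σ1 : σ ≤ 1 := by rw [hσ, div_le_one hs0]; linarith
  have b4 := (key σ).2
  have c1 : D.d * (2 * (K * σ ^ 2 / r)) ≤ σ * (K / 4) := by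
    have e : D.d * (2 * (K * σ ^ 2 / r)) = σ * K * (2 * D.d / (r + 8 * D.d)) := by
      rw [hσ]; field_simp
    have e2 : 2 * D.d / (r + 8 * D.d) ≤ 1 / 4 := by
      rw [div_le_iff₀ hs0]; linarith
    have := mul_le_mul_of_nonneg_left e2 (mul_pos σ0 hK0).le
    linarith only [e, this]
  have c2 : D.g X - D.g Y ≤ σ * (K / 4) := by
    rw [hσ, div_mul_eq_mul_div, le_div_iff₀ hs0]
    have g1 : D.g X - D.g Y ≤ 2 * D.C := by linarith only [gX, gY, n0, a1, a2]
    have g2 := D.hL X Y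
    rw [← hv, ← hr] at g2
    have g3 := mul_le_mul_of_nonneg_right g1 hr0.le
    have g4 := mul_le_mul_of_nonneg_left g2 hd
    have g5 := mul_le_mul_of_nonneg_left hK hr0.le
    linarith only [g3, g4, g5]
  have c3 : σ * (K / 2) ≤ σ * (D.d * T) := mul_le_mul_of_nonneg_left hT2 σ0.le
  have c4 : 0 ≤ σ * (1 - σ) * (D.d * T) :=
    mul_nonneg (mul_nonneg σ0.le (by linarith)) (by linarith)
  linarith only [b4, c1, c2, c3, c4]

theorem exists_cone {K : ℝ} (hK : ‖D.P‖ < K) (X : E3) {t : ℝ} (ht : 0 ≤ t) :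
    ∃ Y : E3, ∀ Z : E3, D.G (Z, t) - K * ‖X - Z‖ ≤ D.G (Y, t) - K * ‖X - Y‖ := by
  have hC := D.C_pos
  have hk : 0 < K - ‖D.P‖ := sub_pos.2 hK
  have hc : Continuous fun Z : E3 => D.G (Z, t) :=
    Dat.G_cont.comp_continuous (by fun_prop) fun Z => ⟨trivial, ht⟩
  have hR : 0 ≤ 2 * D.C * t / (K - ‖D.P‖) := by positivity
  obtain ⟨Y, -, hY⟩ := (isCompact_closedBall X (2 * D.C * t / (K - ‖D.P‖))).exists_isMaxOn
    ⟨X, Metric.mem_closedBall_self hR⟩ (f := fun Z => D.G (Z, t) - K * ‖X - Z‖)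
    (Continuous.continuousOn (by fun_prop))
  refine ⟨Y, fun Z => ?_⟩
  rcases le_total ‖Z - X‖ (2 * D.C * t / (K - ‖D.P‖)) with h | h
  · exact hY (mem_closedBall_iff_norm.2 h)
  · have h1 : D.G (X, t) - K * ‖X - X‖ ≤ D.G (Y, t) - K * ‖X - Y‖ :=
      hY (Metric.mem_closedBall_self hR)
    rw [div_le_iff₀ hk] at h
    have h2 := Dat.G_bd (D := D) Z ht
    have h3 := Dat.G_lo (D := D) X ht
    have h4 := real_inner_le_norm D.P (Z - X)
    rw [inner_sub_right] at h4
    rw [sub_self, norm_zero, mul_zero, sub_zero] at h1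
    rw [norm_sub_rev X Z]
    linarith only [h, h1, h2, h3, h4]

theorem lip (hp : ∀ k X, D.g (X + latt k) = D.g X) {c : ℝ} (hc : ∀ X, c ≤ ‖D.P‖ + D.g X)
    (hc' : ∀ X, D.g X ≤ c) (X Y : E3) {t : ℝ} (ht : 0 ≤ t) :
    D.G (Y, t) - D.G (X, t) ≤ (8 * D.C + 32 * D.d * D.L) * ‖X - Y‖ := by
  have hC := D.C_pos
  have hd := D.hd
  have hL := D.hL0
  set K := 8 * D.C + 32 * D.d * D.L with hK
  have hdL : 0 ≤ D.d * D.L := by positivity
  have hPK : ‖D.P‖ < K := by linarith only [D.hC 0, abs_nonneg (D.g 0), hC, hdL, hK]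
  have hK0 : 0 ≤ K := (norm_nonneg _).trans hPK.le
  have hex : ∀ z : E3 × ℝ, ∃ Y : E3, 0 ≤ z.2 → ∀ Z : E3,
      D.G (Z, z.2) - K * ‖z.1 - Z‖ ≤ D.G (Y, z.2) - K * ‖z.1 - Y‖ := by
    intro z
    by_cases h : 0 ≤ z.2
    · obtain ⟨Y, hY⟩ := exists_cone hPK z.1 h
      exact ⟨Y, fun _ => hY⟩
    · exact ⟨0, fun h' => absurd h' h⟩
  choose m hm using hex
  set u : E3 × ℝ → ℝ := fun z => D.G (m z, z.2) - K * ‖z.1 - m z‖ with hu
  have hle : ∀ X Z t, 0 ≤ t → D.G (Z, t) - K * ‖X - Z‖ ≤ u (X, t) := fun X Z t ht =>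
    hm (X, t) ht Z
  have hlip : ∀ y z : E3 × ℝ, 0 ≤ y.2 → 0 ≤ z.2 →
      u y - u z ≤ K * ‖y.1 - z.1‖ + D.C * |y.2 - z.2| := by
    intro y z hy hz
    have h1 := hle z.1 (m y) z.2 hz
    have h2 := Dat.G_time (D := D) (m y) hy hz
    have h3 : ‖z.1 - m y‖ ≤ ‖y.1 - z.1‖ + ‖y.1 - m y‖ := by
      rw [norm_sub_rev y.1 z.1]; exact norm_sub_le_norm_sub_add_norm_sub _ _ _
    have h4 := mul_le_mul_of_nonneg_left h3 hK0
    simp only [Prod.mk.eta] at h1
    have h5 : u y = D.G (m y, y.2) - K * ‖y.1 - m y‖ := rfl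
    linarith only [h1, h2, h4, h5]
  have hadm : D.Adm u := by
    refine ⟨fun z hz => ?_, fun X t b ht => le_antisymm ?_ ?_, fun X t ht => ?_, fun z hz => ?_⟩
    · have hc : Continuous fun y : E3 × ℝ => K * ‖y.1 - z.1‖ + D.C * |y.2 - z.2| := by fun_prop
      have h0 := (hc.tendsto z).mono_left (nhdsWithin_le_nhds (s := univ ×ˢ Ici 0))
      simp only [sub_self, norm_zero, mul_zero, abs_zero, add_zero] at h0
      refine tendsto_iff_norm_sub_tendsto_zero.2 (squeeze_zero' (Eventually.of_forall fun _ =>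
        norm_nonneg _) ?_ h0)
      filter_upwards [self_mem_nhdsWithin] with y hy
      have h1 := hlip y z hy.2 hz.2
      have h2 := hlip z y hz.2 hy.2
      rw [norm_sub_rev, abs_sub_comm] at h2
      rw [Real.norm_eq_abs, abs_le]
      constructor <;> linarith only [h1, h2]
    · have h1 := hle X (m (X + b • e3, t) + (-b) • e3) t ht
      rw [Dat.G_aff _ _ _ ht] at h1
      have h2 : X - (m (X + b • e3, t) + (-b) • e3) = X + b • e3 - m (X + b • e3, t) := by
        rw [neg_smul]; abel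
      rw [h2] at h1
      have h5 : u (X + b • e3, t) = D.G (m (X + b • e3, t), t) -
        K * ‖X + b • e3 - m (X + b • e3, t)‖ := rfl
      linarith only [h1, h5]
    · have h1 := hle (X + b • e3) (m (X, t) + b • e3) t ht
      rw [Dat.G_aff _ _ _ ht, add_sub_add_right_eq_sub] at h1
      have h5 : u (X, t) = D.G (m (X, t), t) - K * ‖X - m (X, t)‖ := rfl
      linarith only [h1, h5]
    · have h2 := Dat.G_bd (D := D) (m (X, t)) ht
      have h4 := real_inner_le_norm D.P (m (X, t) - X)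
      rw [inner_sub_right, norm_sub_rev] at h4
      have h3 := mul_le_mul_of_nonneg_right hPK.le (norm_nonneg (X - m (X, t)))
      have h5 : u (X, t) = D.G (m (X, t), t) - K * ‖X - m (X, t)‖ := rfl
      linarith only [h2, h3, h4, h5]
    · have hev : ∀ᶠ y : E3 × ℝ in 𝓝 z, 0 < y.2 :=
        continuous_snd.continuousAt.eventually (lt_mem_nhds hz)
      by_cases hne : z.1 = m z
      · refine (Dat.G_sub z hz).of_touch ?_ ?_
        · filter_upwards [hev] with y hy
          simpa using hle y.1 y.1 y.2 hy.le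
        · have h5 : u z = D.G (m z, z.2) - K * ‖z.1 - m z‖ := rfl
          rw [h5, ← hne]; simp
      · intro φ hφ hmax h3
        refine cone_sub hp hc hc' le_rfl hφ (X := z.1) (Y := m z) (t := z.2) hz hne ?_ h3
        have ht : Tendsto (fun w : E3 × E3 × ℝ => (w.1, w.2.2)) (𝓝 (z.1, m z, z.2)) (𝓝 z) := by
          have : Continuous fun w : E3 × E3 × ℝ => (w.1, w.2.2) := by fun_prop
          exact this.tendsto _
        filter_upwards [ht.eventually hmax, ht.eventually hev] with w h1 h2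
        have h4 := hle w.1 w.2.1 w.2.2 h2.le
        have h5 : u z = D.G (m z, z.2) - K * ‖z.1 - m z‖ := rfl
        simp only [Prod.mk.eta] at h1 h4 ⊢
        linarith only [h1, h4, h5]
  have h1 := hadm.le X ht
  have h2 := hle X Y t ht
  linarith only [h1, h2]

theorem osc_bound (hp : ∀ k X, D.g (X + latt k) = D.g X) {c : ℝ} (hc : ∀ X, c ≤ ‖D.P‖ + D.g X)
    (hc' : ∀ X, D.g X ≤ c) : ∃ B : ℝ, 0 ≤ B ∧ ∀ X Y t, 0 ≤ t →
      D.G (X, t) - inner ℝ D.P X ≤ D.G (Y, t) - inner ℝ D.P Y + B := by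
  have hC := D.C_pos
  have hd := D.hd
  have hL := D.hL0
  have hP := norm_nonneg D.P
  have hK : 0 ≤ 8 * D.C + 32 * D.d * D.L := by positivity
  refine ⟨(8 * D.C + 32 * D.d * D.L) * 2 + ‖D.P‖ * 2, by positivity, fun X Y t ht => ?_⟩
  obtain ⟨k, hk⟩ := exists_latt (X - Y)
  rw [mem_closedBall_zero_iff, ← add_sub_right_comm] at hk
  have h1 := lip hp hc hc' Y (X + latt k) ht
  rw [Dat.G_inv X _ ht (hp k), norm_sub_rev] at h1
  have h2 := real_inner_le_norm D.P (-(X + latt k - Y))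
  rw [norm_neg, inner_neg_right, inner_sub_right, inner_add_right] at h2
  have h3 := mul_le_mul_of_nonneg_left hk hK
  have h4 := mul_le_mul_of_nonneg_left hk hP
  linarith only [h1, h2, h3, h4]

theorem velocity (hp : ∀ k X, D.g (X + latt k) = D.g X) {c : ℝ} (hc : ∀ X, c ≤ ‖D.P‖ + D.g X)
    (hc' : ∀ X, D.g X ≤ c) : ∃ H, HasBurningVelocity D.P D.G H := by
  obtain ⟨B, hB, h⟩ := osc_bound hp hc hc'
  have hC := D.C_pos
  set u : ℕ → ℝ := fun n => D.G (0, n) + B with hu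
  have hsub : Subadditive u := by
    intro m n
    have h1 := (Dat.G_adm.shift (D := D) 0 (s := n) (Nat.cast_nonneg n) (D.G (0, n) + B) (κ := 0)
      (fun X => by simp) fun X t ht => by
        have h2 := Dat.G_time1 (D := D) X (Nat.cast_nonneg n) ht
        have h3 := h X 0 n (Nat.cast_nonneg n)
        rw [inner_zero_right] at h3
        rw [add_zero, add_comm t]
        linarith).le 0 (Nat.cast_nonneg m)
    simp only [Prod.mk_add_mk, add_zero, zero_mul] at h1
    simp only [hu, Nat.cast_add]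
    linarith
  have hbdd : BddBelow (range fun n => u n / n) := by
    refine ⟨-D.C, ?_⟩
    rintro _ ⟨n, rfl⟩
    rcases Nat.eq_zero_or_pos n with rfl | hn
    · simp [hC.le]
    · have h1 := Dat.G_lo (D := D) 0 (Nat.cast_nonneg n)
      rw [inner_zero_right] at h1
      simp only [hu]
      rw [le_div_iff₀ (by exact_mod_cast hn)]
      linarith only [hB, h1]
  refine ⟨-hsub.lim, fun X => Tendsto.neg ?_⟩
  have h1 : Tendsto (fun t : ℝ => u ⌊t⌋₊ / t) atTop (𝓝 hsub.lim) := by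
    have h2 := ((hsub.tendsto_lim hbdd).comp (tendsto_nat_floor_atTop (α := ℝ))).mul
      (tendsto_nat_floor_div_atTop (R := ℝ))
    rw [mul_one] at h2
    refine h2.congr' ?_
    filter_upwards [eventually_ge_atTop 1] with t ht
    have : (⌊t⌋₊ : ℝ) ≠ 0 := by exact_mod_cast (Nat.floor_pos.2 ht).ne'
    simp only [Function.comp]
    field_simp
  have h2 : ∀ c : ℝ, Tendsto (fun t : ℝ => u ⌊t⌋₊ / t + c / t) atTop (𝓝 hsub.lim) := fun c => by
    simpa using h1.add ((tendsto_const_nhds (x := c)).div_atTop (tendsto_id (α := ℝ)))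
  have h3 : ∀ t : ℝ, 0 ≤ t → |t - ⌊t⌋₊| ≤ 1 := fun t ht =>
    abs_le.2 ⟨by linarith [Nat.floor_le ht], by linarith [Nat.lt_floor_add_one t]⟩
  refine tendsto_of_tendsto_of_tendsto_of_le_of_le' (h2 (-(2 * B + D.C))) (h2 D.C) ?_ ?_
  · filter_upwards [eventually_gt_atTop 0] with t ht
    rw [← add_div]
    refine div_le_div_of_nonneg_right ?_ ht.le
    have h4 := h 0 X t ht.le
    have h5 := Dat.G_time (D := D) 0 (Nat.cast_nonneg ⌊t⌋₊) ht.le
    rw [abs_sub_comm] at h5
    have h6 := mul_le_mul_of_nonneg_left (h3 t ht.le) hC.le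
    rw [inner_zero_right] at h4
    simp only [hu]
    linarith
  · filter_upwards [eventually_gt_atTop 0] with t ht
    rw [← add_div]
    refine div_le_div_of_nonneg_right ?_ ht.le
    have h4 := h X 0 t ht.le
    have h5 := Dat.G_time (D := D) 0 ht.le (Nat.cast_nonneg ⌊t⌋₊)
    have h6 := mul_le_mul_of_nonneg_left (h3 t ht.le) hC.le
    rw [inner_zero_right] at h4
    simp only [hu]
    linarith

/-- For a weak flow some solution has a burning velocity, whatever `d`. -/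
theorem exists_vel {f : ℝ × ℝ → ℝ} (hf : ∃ K, LipschitzWith K f)
    (hper : ∀ (x y : ℝ) (m n : ℤ), f (x + m, y + n) = f (x, y)) (A : ℝ) {d : ℝ} (hd : 0 ≤ d)
    {P : E3} (hP : P 2 ≠ 0) (hw : ∀ x, |A * f x * P 2| ≤ ‖P‖ / 2) :
    ∃ G H, IsViscSol f A d P G ∧ HasBurningVelocity P G H := by
  obtain ⟨K, hK⟩ := hf
  have hc := hK.continuous
  have hp : ∀ k (X : E3), A * f ((X + latt k) 0, (X + latt k) 1) * P 2 = A * f (X 0, X 1) * P 2 := by
    intro k X
    simp only [PiLp.add_apply, latt, hper]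
  obtain ⟨M, hM⟩ := bounded_of_per (fun X => A * f (X 0, X 1) * P 2) (by fun_prop) hp
  let D : Dat :=
    { d := d, P := P, g := fun X => A * f (X 0, X 1) * P 2, L := |A * P 2| * K, C := ‖P‖ + M + 1
      hd := hd, hP := hP, hL0 := by positivity
      hL := fun X Y => by
        have h1 := hK.dist_le_mul (X 0, X 1) (Y 0, Y 1)
        have h2 : dist (X 0, X 1) (Y 0, Y 1) ≤ ‖X - Y‖ := by
          rw [Prod.dist_eq, ← dist_eq_norm]
          exact max_le (PiLp.dist_apply_le X Y 0) (PiLp.dist_apply_le X Y 1)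
        have h3 := le_abs_self (A * P 2 * (f (X 0, X 1) - f (Y 0, Y 1)))
        rw [abs_mul] at h3
        rw [Real.dist_eq] at h1
        have h4 := mul_le_mul_of_nonneg_left (h1.trans (mul_le_mul_of_nonneg_left h2 K.2))
          (abs_nonneg (A * P 2))
        linarith
      hC := fun X => by linarith [hM X]
      he := fun X b => by simp [e3] }
  obtain ⟨H, hH⟩ := velocity (D := D) hp (c := ‖P‖ / 2)
    (fun X => by have := (abs_le.1 (hw (X 0, X 1))).1; change _ ≤ ‖P‖ + A * _ * _; linarith)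
    fun X => (abs_le.1 (hw (X 0, X 1))).2
  exact ⟨D.G, H, D.isViscSol (fun _ => rfl) hp, hH⟩

end Pool.Agent.Work.MP_d0383e_an.One
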