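import Pool.Agent.Work.MP_d0383e_an.One.Lip

/-!
In every non-vertical direction one weak flow is accelerated by curvature for all small `d`.
-/

namespace Pool.Agent.Work.MP_d0383e_an.One

open Pool.Agent.Work.MP_d0383e_an.Dir
open scoped ContDiff Laplacian Topology
open Filter Set Real

theorem velocity_ge' {P : E3} {G : E3 × ℝ → ℝ} {h C H : ℝ}
    (h1 : ∀ X t, 0 ≤ t → G (X, t) - inner ℝ P X ≤ C - h * t)
    (hH : HasBurningVelocity P G H) : h ≤ H := by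
  refine le_of_tendsto_of_tendsto (tendsto_aux (-C) h) (hH 0) ?_
  filter_upwards [eventually_gt_atTop 0] with t ht
  have := h1 0 t ht.le
  rw [← neg_div, le_div_iff₀ ht]
  field_simp
  linarith

theorem sqrt_ge (a b c u v : ℝ) (hc : c ≠ 0) :
    √(a ^ 2 + b ^ 2 + c ^ 2) + (a * u + b * v) / √(a ^ 2 + b ^ 2 + c ^ 2) ≤
      √((a + u) ^ 2 + (b + v) ^ 2 + c ^ 2) := by
  have h0 : 0 < a ^ 2 + b ^ 2 + c ^ 2 := by positivity
  set W := √(a ^ 2 + b ^ 2 + c ^ 2) with hW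
  have hW0 : 0 < W := sqrt_pos.2 h0
  have hW2 : W ^ 2 = a ^ 2 + b ^ 2 + c ^ 2 := sq_sqrt h0.le
  refine le_trans (le_abs_self _) (Real.abs_le_sqrt ?_)
  have e : W + (a * u + b * v) / W = (a * (a + u) + b * (b + v) + c ^ 2) / W := by
    field_simp
    linarith only [hW2]
  rw [e, div_pow, hW2, div_le_iff₀ h0]
  linarith only [sq_nonneg (a * (b + v) - b * (a + u)), sq_nonneg (c * u), sq_nonneg (c * v)]

theorem barrier {P : E3} (h3 : P 2 ≠ 0) (u ψ : Sm)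
    (hpos : ∀ x, 0 < √(WW P u x) * ((P 0 + evx x (dx u)) * evx x (dx ψ) +
      (P 1 + evx x (dy u)) * evx x (dy ψ)) - Kw P u x) :
    ∃ δ0 c : ℝ, 0 < δ0 ∧ 0 < c ∧ ∀ δ, 0 < δ → δ < δ0 → ∀ x, √(WW P u x) + c * δ ≤
      √(WW P (u + δ • ψ) x) - δ * (Kw P (u + δ • ψ) x / WW P (u + δ • ψ) x) := by
  have hsq : IsCompact (Icc (0 : ℝ) 1 ×ˢ Icc (0 : ℝ) 1) := isCompact_Icc.prod isCompact_Icc
  have hWp : ∀ w x, 0 < WW P w x := fun w x => by unfold WW; positivity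
  set Q : ℝ × (ℝ × ℝ) → ℝ := fun q =>
    ((P 0 + evx q.2 (dx u)) * evx q.2 (dx ψ) + (P 1 + evx q.2 (dy u)) * evx q.2 (dy ψ)) /
      √(WW P u q.2) - Kw P (u + q.1 • ψ) q.2 / WW P (u + q.1 • ψ) q.2 with hQ
  have k1 := cont_evx (dx u)
  have k2 := cont_evx (dy u)
  have k3 := cont_evx (dx (dx u))
  have k4 := cont_evx (dy (dx u))
  have k5 := cont_evx (dy (dy u))
  have l1 := cont_evx (dx ψ)
  have l2 := cont_evx (dy ψ)
  have l3 := cont_evx (dx (dx ψ))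
  have l4 := cont_evx (dy (dx ψ))
  have l5 := cont_evx (dy (dy ψ))
  have cW0 : Continuous fun q : ℝ × (ℝ × ℝ) => WW P u q.2 := by unfold WW; fun_prop
  have cW : Continuous fun q : ℝ × (ℝ × ℝ) => WW P (u + q.1 • ψ) q.2 := by
    simp only [WW, map_add, map_smul, smul_eq_mul]; fun_prop
  have cK : Continuous fun q : ℝ × (ℝ × ℝ) => Kw P (u + q.1 • ψ) q.2 := by
    simp only [Kw, WW, map_add, map_smul, smul_eq_mul]; fun_prop
  have cQ : Continuous Q :=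
    (Continuous.div (by fun_prop) cW0.sqrt fun q => (sqrt_pos.2 (hWp u q.2)).ne').sub
      (cK.div cW fun q => (hWp _ _).ne')
  have hQ0 : ∀ x, 0 < Q (0, x) := by
    intro x
    have h1 := div_pos (hpos x) (hWp u x)
    have hW0 : 0 < √(WW P u x) := sqrt_pos.2 (hWp u x)
    have hW2 : WW P u x = √(WW P u x) ^ 2 := (sq_sqrt (hWp u x).le).symm
    simp only [hQ, zero_smul, add_zero]
    refine h1.trans_eq ?_
    set W := √(WW P u x)
    rw [hW2]
    field_simp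
  obtain ⟨c, hc, hc'⟩ := hsq.exists_forall_le'
    (cQ.comp (Continuous.prodMk_right (0 : ℝ))).continuousOn (a := 0) fun x _ => hQ0 x
  have h1 : ∀ᶠ δ in 𝓝 (0 : ℝ), ∀ x ∈ Icc (0 : ℝ) 1 ×ˢ Icc (0 : ℝ) 1, c / 2 < Q (δ, x) := by
    refine hsq.eventually_forall_of_forall_eventually fun x hx => ?_
    refine cQ.continuousAt.eventually (lt_mem_nhds ?_)
    have := hc' x hx
    simp only [Function.comp] at this
    linarith only [hc, this]
  obtain ⟨δ0, hδ0, h1⟩ := exists_pos_of_ev h1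
  refine ⟨δ0, c / 2, hδ0, by positivity, fun δ hδ hδ' x => ?_⟩
  have h2 : c / 2 < Q (δ, x) := by
    have := h1 δ hδ hδ' _ (fract_mem x)
    simpa only [hQ, Kw, WW, evx_fract] using this
  have h4 := mul_lt_mul_of_pos_left h2 hδ
  have h5 := sqrt_ge (P 0 + evx x (dx u)) (P 1 + evx x (dy u)) (P 2) (δ * evx x (dx ψ))
    (δ * evx x (dy ψ)) h3
  have e1 : WW P (u + δ • ψ) x = (P 0 + evx x (dx u) + δ * evx x (dx ψ)) ^ 2 +
      (P 1 + evx x (dy u) + δ * evx x (dy ψ)) ^ 2 + P 2 ^ 2 := by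
    simp only [WW, map_add, map_smul, smul_eq_mul]; ring
  rw [← e1] at h5
  change √(WW P u x) + _ / √(WW P u x) ≤ _ at h5
  have e2 : ((P 0 + evx x (dx u)) * (δ * evx x (dx ψ)) + (P 1 + evx x (dy u)) *
      (δ * evx x (dy ψ))) / √(WW P u x) - δ * (Kw P (u + δ • ψ) x / WW P (u + δ • ψ) x) =
      δ * Q (δ, x) := by
    simp only [hQ]; ring
  linarith only [h4, h5, e2]

theorem speedup {P : E3} (hP : ‖P‖ = 1) (h3 : P 2 ≠ 0) (h : ¬ (P 0 = 0 ∧ P 1 = 0)) {η : ℝ}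
    (hη : 0 < η) : ∃ d₀ c : ℝ, 0 < d₀ ∧ 0 < c ∧ ∀ A : ℝ, 0 < A →
      ∃ f : ℝ × ℝ → ℝ, ContDiff ℝ ∞ f ∧ (∀ (x y : ℝ) (m n : ℤ), f (x + m, y + n) = f (x, y)) ∧
        (∃ x y, f x ≠ f y) ∧ (∀ x, |A * f x| ≤ η) ∧ (∃ G₀, IsViscSol f A 0 P G₀) ∧
        (∀ G₀, IsViscSol f A 0 P G₀ → HasBurningVelocity P G₀ 1) ∧
        ∀ d, 0 < d → d < d₀ → (∃ G H, IsViscSol f A d P G ∧ HasBurningVelocity P G H) ∧
          ∀ G, IsViscSol f A d P G →
            ∃ C, ∀ X t, 0 ≤ t → G (X, t) - inner ℝ P X ≤ C - (1 + c * d) * t := by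
  have hp := norm_sq_eq hP
  obtain ⟨C, hC, s, φ1, φ2, φ3, hE⟩ := exists_corr hp h3 h
  have hT : IsCompact (jet s φ1 φ2 φ3 '' (Icc 0 1 ×ˢ Icc 0 1)) :=
    (isCompact_Icc.prod isCompact_Icc).image (contDiff_jet s φ1 φ2 φ3).continuous
  have h3' : 0 < |P 2| := abs_pos.2 h3
  obtain ⟨ε, hε⟩ := exists_eps hp h3 hC hT (by rintro _ ⟨x, -, rfl⟩; exact hE x)
    (η := min (η * |P 2|) (1 / 2)) (by positivity)
  have hε' := fun x => hε _ (jet_mem s φ1 φ2 φ3 x)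
  have e1 : ∀ x, WW P (ε • s) x = W2 (P 0) (P 1) (P 2) ε (jet s φ1 φ2 φ3 x) := by
    intro x
    simp only [WW, W2, S1, S2, jet, map_smul, smul_eq_mul, Matrix.cons_val]
  have e2 : ∀ x, Kw P (ε • s) x = KK (P 0) (P 1) (P 2) ε (jet s φ1 φ2 φ3 x) := by
    intro x
    rw [Kw, e1]
    simp only [KK, S1, S2, jet, map_smul, smul_eq_mul, Matrix.cons_val]
    ring
  obtain ⟨δ0, c, hδ0, hc, hδ⟩ := barrier h3 (ε • s) (ε • φ1 + ε ^ 2 • φ2 + ε ^ 3 • φ3) fun x => by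
    refine (hε' x).2.trans_eq ?_
    rw [e1, e2]
    simp only [BB, S1, S2, F1, F2, jet, map_smul, map_add, smul_eq_mul, Matrix.cons_val]
  have hpi := pi_pos
  refine ⟨δ0 / (2 * π), c * (2 * π), by positivity, by positivity, fun A hA => ?_⟩
  set f : ℝ × ℝ → ℝ := fun x =>
    (1 - √(W2 (P 0) (P 1) (P 2) ε (jet s φ1 φ2 φ3 x))) / (A * P 2) with hf
  have hAf : ∀ x, A * f x * P 2 = 1 - √(W2 (P 0) (P 1) (P 2) ε (jet s φ1 φ2 φ3 x)) := by
    intro x; simp only [hf]; field_simp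
  have hcd : ContDiff ℝ ∞ f := by
    have hW : ContDiff ℝ ∞ (W2 (P 0) (P 1) (P 2) ε) := by unfold W2 S1 S2; fun_prop
    exact (contDiff_const.sub ((hW.sqrt fun z => (W2_pos h3 ε z).ne').comp
      (contDiff_jet s φ1 φ2 φ3))).div_const _
  have hper : ∀ (x y : ℝ) (m n : ℤ), f (x + m, y + n) = f (x, y) := by
    intro x y m n; simp only [hf, jet_per]
  have hL := lipschitz_of_per f (hcd.of_le (by exact_mod_cast le_top)) hper
  have hw : ∀ X e, IsDir (gradient (UU P (ε • s)) X) e → spat f A 0 (UU P (ε • s)) X e = 1 := by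
    intro X e he
    rw [spat_UU h3 _ f A 0 X e he, e1, hAf, mul_zero, zero_mul, sub_zero,
      max_eq_left (sqrt_nonneg _)]
    ring
  have hG0 : ∀ G, IsViscSol f A 0 P G → HasBurningVelocity P G 1 := by
    intro G hG
    obtain ⟨C1, h1⟩ := upper hG _ (contDiff_UU P _) (UU_per P _) 1 fun X e he => (hw X e he).ge
    obtain ⟨C2, h2⟩ := lower hG _ (contDiff_UU P _) (UU_per P _) 1 fun X e he => (hw X e he).le
    exact velocity_of_bounds h1 h2
  have hG : ∀ d, 0 < d → d < δ0 / (2 * π) → ∀ G, IsViscSol f A d P G →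
      ∃ C, ∀ X t, 0 ≤ t → G (X, t) - inner ℝ P X ≤ C - (1 + c * (2 * π) * d) * t := by
    intro d hd hd' G hG
    have h1 := hδ (2 * π * d) (by positivity)
      (by rw [lt_div_iff₀ (by positivity)] at hd'; linarith)
    exact upper hG _
      (contDiff_UU P (ε • s + (2 * π * d) • (ε • φ1 + ε ^ 2 • φ2 + ε ^ 3 • φ3))) (UU_per P _)
      (1 + c * (2 * π) * d) fun X e he => by
        rw [spat_UU h3 _ f A d X e he, hAf, ← e1]
        have h4 := h1 (X 0, X 1)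
        refine le_trans ?_ (add_le_add_left (le_max_left _ _) _)
        linarith only [h4]
  have hex : ∀ d, 0 ≤ d → ∃ G H, IsViscSol f A d P G ∧ HasBurningVelocity P G H := fun d hd =>
    exists_vel hL hper A hd h3 fun x => by
      rw [hAf, hP]; exact ((hε' x).1.trans_le (min_le_right _ _)).le
  refine ⟨f, hcd, hper, ?_, fun x => ?_, ?_, hG0, fun d hd hd' => ⟨hex d hd.le, hG d hd hd'⟩⟩
  · by_contra hne
    push Not at hne
    have hd : 0 < δ0 / (2 * π) / 2 := by positivity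
    obtain ⟨G, H, hG1, hH⟩ := hex _ hd.le
    obtain ⟨G0, H0, hG2, -⟩ := hex 0 le_rfl
    have hz : ∀ d' X e, IsDir (gradient (UU P 0) X) e →
        spat f A d' (UU P 0) X e = 1 + A * f 0 * P 2 := by
      intro d' X e he
      rw [spat_zero hP h3 f A d' X e he, hne (X 0, X 1) 0]
    obtain ⟨C1, h1⟩ := lower hG1 _ (contDiff_UU P _) (UU_per P _) _
      fun X e he => (hz _ X e he).le
    obtain ⟨C2, h2⟩ := upper hG2 _ (contDiff_UU P _) (UU_per P _) _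
      fun X e he => (hz 0 X e he).ge
    have a1 := velocity_le h1 hH
    have a2 := velocity_ge' h2 (hG0 G0 hG2)
    obtain ⟨C3, h4⟩ := hG _ hd (by linarith) G hG1
    have a3 := velocity_ge' h4 hH
    have a4 : 0 < c * (2 * π) * (δ0 / (2 * π) / 2) := by positivity
    linarith only [a1, a2, a3, a4]
  · have h1 := ((hε' x).1.trans_le (min_le_left _ _)).le
    rw [← hAf, abs_mul] at h1
    exact le_of_mul_le_mul_right h1 h3'
  · obtain ⟨G0, -, hG2, -⟩ := hex 0 le_rfl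
    exact ⟨G0, hG2⟩

end Pool.Agent.Work.MP_d0383e_an.One
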